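import Pool.Agent.H66.TK.Stm

/-!
# IRF: the equation of the surface is irreducible over the algebraic closure (project TK)
-/

set_option autoImplicit false

open Pool.Agent.H66.TK

namespace Pool.Agent.H33.TK

open Polynomial in
/-- A polynomial `q` with `q³ + α q + β = 0`, `deg α ≤ 2`, `deg β ≤ 3` has degree at most one. -/
theorem irf_deg {F : Type} [Field F] (q al be : F[X]) (ha : al.natDegree ≤ 2)
    (hb : be.natDegree ≤ 3) (h : q ^ 3 + al * q + be = 0) : q.natDegree ≤ 1 := by
  by_contra hq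
  push Not at hq
  have h1 : (q ^ 3).natDegree = 3 * q.natDegree := natDegree_pow q 3
  have h2 : (al * q + be).natDegree < (q ^ 3).natDegree := by
    rw [h1]
    refine lt_of_le_of_lt (natDegree_add_le _ _) (max_lt ?_ ?_)
    · refine lt_of_le_of_lt natDegree_mul_le ?_
      omega
    · omega
  have h3 : (q ^ 3 + (al * q + be)).natDegree = (q ^ 3).natDegree :=
    natDegree_add_eq_left_of_natDegree_lt h2
  rw [← add_assoc, h, natDegree_zero, h1] at h3
  omega

/-- The coefficients of a cubic polynomial which is zero. -/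
theorem irf_coeff {F : Type} [Field F] (c0 c1 c2 c3 : F)
    (h : Polynomial.C c0 + Polynomial.C c1 * Polynomial.X + Polynomial.C c2 * Polynomial.X ^ 2 +
      Polynomial.C c3 * Polynomial.X ^ 3 = 0) : c0 = 0 ∧ c1 = 0 ∧ c2 = 0 ∧ c3 = 0 := by
  refine ⟨?_, ?_, ?_, ?_⟩
  · simpa [Polynomial.coeff_C] using congrArg (fun f => Polynomial.coeff f 0) h
  · simpa [Polynomial.coeff_C, Polynomial.coeff_X_pow] using
      congrArg (fun f => Polynomial.coeff f 1) h
  · simpa [Polynomial.coeff_C, Polynomial.coeff_X_pow, Polynomial.coeff_X] using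
      congrArg (fun f => Polynomial.coeff f 2) h
  · simpa [Polynomial.coeff_C, Polynomial.coeff_X_pow, Polynomial.coeff_X] using
      congrArg (fun f => Polynomial.coeff f 3) h

/-- The polynomial statement over a field: no root of the cubic. -/
theorem irf_noroot {F : Type} [Field F] (a : Fin 3 → Fin 3 → F) (b : Fin 4 → Fin 4 → F)
    (h : ∀ l m : F, ∃ x : Fin 2 → F, FF a b (l * x 0 + m * x 1) x ![1, 0] ≠ 0)
    (p : MvPolynomial (Fin 4) F)
    (hp : FF (fun i j => MvPolynomial.C (a i j)) (fun i j => MvPolynomial.C (b i j)) p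
      ![MvPolynomial.X 0, MvPolynomial.X 1] ![MvPolynomial.X 2, MvPolynomial.X 3] = 0) : False := by
  let φ : MvPolynomial (Fin 4) F →ₐ[F] Polynomial F :=
    MvPolynomial.aeval ![1, Polynomial.X, 1, 0]
  have e := congrArg φ hp
  have hX0 : φ (MvPolynomial.X 0) = 1 := by simp [φ]
  have hX1 : φ (MvPolynomial.X 1) = Polynomial.X := by simp [φ]
  have hX2 : φ (MvPolynomial.X 2) = 1 := by simp [φ]
  have hX3 : φ (MvPolynomial.X 3) = 0 := by simp [φ]
  have hC : ∀ c : F, φ (MvPolynomial.C c) = Polynomial.C c := by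
    intro c
    simp [φ]
  have e' : (φ p) ^ 3 + (Polynomial.C (a 0 0) + Polynomial.C (a 1 0) * Polynomial.X +
      Polynomial.C (a 2 0) * Polynomial.X ^ 2) * φ p + (Polynomial.C (b 0 0) +
      Polynomial.C (b 1 0) * Polynomial.X + Polynomial.C (b 2 0) * Polynomial.X ^ 2 +
      Polynomial.C (b 3 0) * Polynomial.X ^ 3) = 0 := by
    have : φ (FF (fun i j => MvPolynomial.C (a i j)) (fun i j => MvPolynomial.C (b i j)) p
      ![MvPolynomial.X 0, MvPolynomial.X 1] ![MvPolynomial.X 2, MvPolynomial.X 3]) =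
      (φ p) ^ 3 + (Polynomial.C (a 0 0) + Polynomial.C (a 1 0) * Polynomial.X +
      Polynomial.C (a 2 0) * Polynomial.X ^ 2) * φ p + (Polynomial.C (b 0 0) +
      Polynomial.C (b 1 0) * Polynomial.X + Polynomial.C (b 2 0) * Polynomial.X ^ 2 +
      Polynomial.C (b 3 0) * Polynomial.X ^ 3) := by
      unfold FF cub ax bx q2 q3
      simp only [Matrix.cons_val_zero, Matrix.cons_val_one, map_add, map_mul, map_pow, hX0, hX1,
        hX2, hX3, hC]
      ring
    rw [← this, e, map_zero]
  have hd : (φ p).natDegree ≤ 1 := by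
    refine irf_deg _ _ _ ?_ ?_ e'
    · compute_degree
    · compute_degree
  obtain ⟨m, l, hq⟩ : ∃ m l : F, φ p = Polynomial.C m * Polynomial.X + Polynomial.C l :=
    Polynomial.exists_eq_X_add_C_of_natDegree_le_one hd
  rw [hq] at e'
  have key : Polynomial.C (l ^ 3 + a 0 0 * l + b 0 0) +
      Polynomial.C (3 * l ^ 2 * m + a 0 0 * m + a 1 0 * l + b 1 0) * Polynomial.X +
      Polynomial.C (3 * l * m ^ 2 + a 1 0 * m + a 2 0 * l + b 2 0) * Polynomial.X ^ 2 +
      Polynomial.C (m ^ 3 + a 2 0 * m + b 3 0) * Polynomial.X ^ 3 = 0 := by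
    rw [← e']
    simp only [Polynomial.C_add, Polynomial.C_mul, Polynomial.C_pow]
    have h3 : (Polynomial.C (3 : F)) = 3 := map_ofNat Polynomial.C 3
    rw [h3]
    ring
  obtain ⟨k0, k1, k2, k3⟩ := irf_coeff _ _ _ _ key
  obtain ⟨x, hx⟩ := h l m
  apply hx
  unfold FF cub ax bx q2 q3
  simp only [Matrix.cons_val_zero, Matrix.cons_val_one]
  linear_combination x 0 ^ 3 * k0 + x 0 ^ 2 * x 1 * k1 + x 0 * x 1 ^ 2 * k2 + x 1 ^ 3 * k3

/-- Irreducibility over a field. -/
theorem irf_field {F : Type} [Field F] (a : Fin 3 → Fin 3 → F) (b : Fin 4 → Fin 4 → F)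
    (h : ∀ l m : F, ∃ x : Fin 2 → F, FF a b (l * x 0 + m * x 1) x ![1, 0] ≠ 0) :
    Irreducible (eqn a b) := by
  rw [← MulEquiv.irreducible_iff (MvPolynomial.finSuccEquiv F 4)]
  set A : MvPolynomial (Fin 4) F := q2 (fun i => q2 (fun j => MvPolynomial.C (a i j))
    ![MvPolynomial.X 2, MvPolynomial.X 3]) ![MvPolynomial.X 0, MvPolynomial.X 1] with hA
  set B : MvPolynomial (Fin 4) F := q3 (fun i => q3 (fun j => MvPolynomial.C (b i j))
    ![MvPolynomial.X 2, MvPolynomial.X 3]) ![MvPolynomial.X 0, MvPolynomial.X 1] with hB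
  have hX0 : MvPolynomial.finSuccEquiv F 4 (MvPolynomial.X 0) = Polynomial.X :=
    MvPolynomial.finSuccEquiv_X_zero
  have hX1 : MvPolynomial.finSuccEquiv F 4 (MvPolynomial.X 1) =
      Polynomial.C (MvPolynomial.X 0) := MvPolynomial.finSuccEquiv_X_succ (j := 0)
  have hX2 : MvPolynomial.finSuccEquiv F 4 (MvPolynomial.X 2) =
      Polynomial.C (MvPolynomial.X 1) := MvPolynomial.finSuccEquiv_X_succ (j := 1)
  have hX3 : MvPolynomial.finSuccEquiv F 4 (MvPolynomial.X 3) =
      Polynomial.C (MvPolynomial.X 2) := MvPolynomial.finSuccEquiv_X_succ (j := 2)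
  have hX4 : MvPolynomial.finSuccEquiv F 4 (MvPolynomial.X 4) =
      Polynomial.C (MvPolynomial.X 3) := MvPolynomial.finSuccEquiv_X_succ (j := 3)
  have hC : ∀ c : F, MvPolynomial.finSuccEquiv F 4 (MvPolynomial.C c) =
      Polynomial.C (MvPolynomial.C c) := by
    intro c
    exact (MvPolynomial.finSuccEquiv F 4).commutes c
  have e : MvPolynomial.finSuccEquiv F 4 (eqn a b) =
      Polynomial.X ^ 3 + (Polynomial.C A * Polynomial.X + Polynomial.C B) := by
    rw [hA, hB]
    unfold eqn FF cub ax bx q2 q3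
    simp only [Matrix.cons_val_zero, Matrix.cons_val_one, map_add, map_mul, map_pow, hX0, hX1,
      hX2, hX3, hX4, hC]
    ring
  rw [e]
  have hd1 : (Polynomial.C A * Polynomial.X + Polynomial.C B).natDegree ≤ 1 := by
    compute_degree
  have hdeg : (Polynomial.C A * Polynomial.X + Polynomial.C B).degree < ((3 : ℕ) : WithBot ℕ) := by
    refine lt_of_le_of_lt Polynomial.degree_le_natDegree ?_
    exact_mod_cast (by omega : (Polynomial.C A * Polynomial.X + Polynomial.C B).natDegree < 3)
  have hmon : (Polynomial.X ^ 3 + (Polynomial.C A * Polynomial.X + Polynomial.C B)).Monic :=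
    Polynomial.monic_X_pow_add hdeg
  have hnd : (Polynomial.X ^ 3 + (Polynomial.C A * Polynomial.X + Polynomial.C B)).natDegree
      = 3 := by
    rw [Polynomial.natDegree_add_eq_left_of_natDegree_lt]
    · exact Polynomial.natDegree_X_pow 3
    · rw [Polynomial.natDegree_X_pow]
      omega
  rw [Polynomial.Monic.irreducible_iff_roots_eq_zero_of_degree_le_three hmon (by omega) (by omega)]
  rw [Multiset.eq_zero_iff_forall_notMem]
  intro p hp
  rw [Polynomial.mem_roots hmon.ne_zero, Polynomial.IsRoot.def] at hp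
  refine irf_noroot a b h p ?_
  have : FF (fun i j => MvPolynomial.C (a i j)) (fun i j => MvPolynomial.C (b i j)) p
      ![MvPolynomial.X 0, MvPolynomial.X 1] ![MvPolynomial.X 2, MvPolynomial.X 3] =
      p ^ 3 + (A * p + B) := by
    rw [hA, hB]
    unfold FF cub ax bx
    ring
  rw [this, ← hp]
  simp

/-- IRF: the equation of the surface is irreducible over the algebraic closure. -/
theorem irf (K : Type) [Field K] [CharZero K] (a : Fin 3 → Fin 3 → K) (b : Fin 4 → Fin 4 → K)
    (h : NoLine a b) :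
    Irreducible (MvPolynomial.map (algebraMap K (AlgebraicClosure K)) (eqn a b)) := by
  have e : MvPolynomial.map (algebraMap K (AlgebraicClosure K)) (eqn a b) =
      eqn (ex (algebraMap K (AlgebraicClosure K)) a) (ex (algebraMap K (AlgebraicClosure K)) b) := by
    unfold eqn FF cub ax bx q2 q3 ex
    simp only [Matrix.cons_val_zero, Matrix.cons_val_one, map_add, map_mul, map_pow,
      MvPolynomial.map_X, MvPolynomial.map_C]
  rw [e]
  refine irf_field _ _ fun l m => h ![1, 0] ?_ l m
  intro h0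
  have := congrFun h0 0
  simp at this

end Pool.Agent.H33.TK
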